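import Mathlib
import Pool.Agent.H19.SLTwo

set_option autoImplicit false

namespace Pool.Agent.Results.MP_b9311c_al.Example

open Matrix PowerSeries Pool.Agent.H19.SLTwo
open scoped PowerSeries.WithPiTopology MatrixGroups

/-- Every maximal abelian subgroup is malnormal. -/
def IsCSA (G : Type) [Group G] : Prop :=
  ∀ A : Subgroup G, Maximal (fun H : Subgroup G => ∀ x ∈ H, ∀ y ∈ H, x * y = y * x) A →
    ∀ g ∉ A, ∀ x ∈ A, g⁻¹ * x * g ∈ A → x = 1

/-- All quotients by open normal subgroups are `p`-groups. -/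
def IsProP (p : ℕ) (G : Type) [Group G] [TopologicalSpace G] : Prop :=
  ∀ N : OpenNormalSubgroup G, IsPGroup p (G ⧸ N.toSubgroup)

lemma csa {G : Type} [Group G] (h1 : ∀ x y z : G, x ≠ 1 → x * y = y * x → x * z = z * x →
    y * z = z * y) (h2 : ∀ x : G, x * x = 1 → x = 1)
    (h3 : ∀ x g : G, x * (g⁻¹ * x * g) = g⁻¹ * x * g * x → g⁻¹ * x * g = x ∨ g⁻¹ * x * g = x⁻¹) :
    IsCSA G := by
  intro A hA g hg x hx hgx
  by_contra e
  refine hg (hA.2 (y := Subgroup.centralizer {x}) (fun y hy z hz => h1 x y z e (hy x rfl) (hz x rfl))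
    (fun y hy z hz => hz ▸ hA.1 x hx y hy) fun z hz => hz ▸ ?_)
  rcases h3 x g (hA.1 _ hx _ hgx) with h | h
  · conv_rhs => rw [← h]
    group
  refine h1 (g * g) x g (fun h => hg (h2 g h ▸ one_mem A)) ?_ (by group)
  have h4 : x * g = g * x⁻¹ := by rw [← h]; group
  have h5 : x⁻¹ * g = g * x := by
    calc _ = g * (g⁻¹ * x * g)⁻¹ := by group
      _ = _ := by rw [h, inv_inv]
  rw [← mul_assoc, h4, mul_assoc g x⁻¹, h5, mul_assoc]

variable (F : Type) [Field F] [CharP F 2] (hF : ∀ a : F, (a ^ 2) ^ 2 = a)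

noncomputable abbrev σ : F⟦X⟧ →+* F⟦X⟧ := PowerSeries.map (frobenius F 2)

include hF in
lemma σσ (a : F⟦X⟧) : σ F (σ F a) = a := by
  ext n
  simp [frobenius_def, hF]

/-- The maximal order of the quaternion division algebra. -/
def D : Subring (Matrix (Fin 2) (Fin 2) F⟦X⟧) where
  carrier := {M | M 1 1 = σ F (M 0 0) ∧ M 1 0 = X * σ F (M 0 1)}
  mul_mem' {M N} hM hN := by
    simp only [Set.mem_ofPred_eq, Matrix.mul_apply, Fin.sum_univ_two, hM.1, hM.2, hN.1, hN.2,
      map_add, map_mul, σσ F hF, map_X]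
    constructor <;> ring
  one_mem' := by simp
  add_mem' {M N} hM hN := by simp [hM.1, hM.2, hN.1, hN.2, mul_add]
  zero_mem' := by simp
  neg_mem' {M} hM := by simp [hM.1, hM.2]

lemma aniso {M : Matrix (Fin 2) (Fin 2) F⟦X⟧} (h : M ∈ D F hF) (h0 : M.det = 0) : M = 0 := by
  have h1 (a : F⟦X⟧) : order (σ F a) = order a :=
    le_antisymm ((le_order_map _).trans_eq (congrArg order (σσ F hF a))) (le_order_map _)
  rw [det_fin_two, h.1, h.2, sub_eq_zero] at h0
  have h2 := congrArg order h0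
  simp only [order_mul, h1, order_X] at h2
  have h3 : M 0 0 = 0 ∧ M 0 1 = 0 := by
    rw [← order_eq_top, ← order_eq_top]
    generalize order (M 0 0) = m, order (M 0 1) = n at h2
    cases m <;> cases n <;> norm_cast at * <;> simp_all
    omega
  ext i j : 1
  fin_cases i <;> fin_cases j <;> simp [h.1, h.2, h3]

lemma nzd {M N : Matrix (Fin 2) (Fin 2) F⟦X⟧} (h : M ∈ D F hF) (h' : N ∈ D F hF) (e : M * N = 0) :
    M = 0 ∨ N = 0 :=
  (mul_eq_zero.mp (by rw [← det_mul, e, det_zero])).imp (aniso F hF h) (aniso F hF h')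

/-- The norm-one group. -/
def H : Subgroup SL(2, F⟦X⟧) where
  carrier := {g | g.1 ∈ D F hF}
  mul_mem' := (D F hF).mul_mem
  one_mem' := (D F hF).one_mem
  inv_mem' {g} h := by
    constructor <;> simp [adjugate_fin_two, h.1, h.2, σσ F hF]

lemma H_csa : IsCSA (H F hF) := by
  refine csa (fun x y z h h1 h2 => Subtype.ext (ca (fun e => h (Subtype.ext e))
    (congrArg Subtype.val h1) (congrArg Subtype.val h2))) (fun x h => ?_) fun x g h => ?_
  · have h1 : x.1.1 * x.1.1 = 1 := congrArg (·.1.1) h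
    have h2 : (1 : Matrix (Fin 2) (Fin 2) F⟦X⟧) + 1 = 0 := by
      ext i j : 1
      simp [CharTwo.add_self_eq_zero]
    have h3 : x.1.1 - 1 ∈ D F hF := (D F hF).sub_mem x.2 (one_mem _)
    refine Subtype.ext (Subtype.ext (sub_eq_zero.mp ((or_self _).mp (nzd F hF h3 h3 ?_))))
    calc (x.1.1 - 1) * (x.1.1 - 1) = x.1.1 * x.1.1 + 1 - x.1.1 * (1 + 1) := by noncomm_ring
      _ = _ := by rw [h1, h2]; simp
  let ι : H F hF →* Matrix (Fin 2) (Fin 2) F⟦X⟧ :=
    SpecialLinearGroup.coeMonoidHom.comp (H F hF).subtype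
  have h1 (m) : (ι x + ι x⁻¹) * m = m * (ι x + ι x⁻¹) := by
    ext i j : 1
    fin_cases i <;> fin_cases j <;>
      simp [ι, adjugate_fin_two, Matrix.mul_apply, Fin.sum_univ_two] <;> ring
  set y := g⁻¹ * x * g with hy
  have h2 : ι y + ι y⁻¹ = ι x + ι x⁻¹ := by
    rw [show y⁻¹ = g⁻¹ * x⁻¹ * g by rw [hy]; group, hy, map_mul, map_mul, map_mul, map_mul,
      ← add_mul, ← mul_add, ← h1, mul_assoc, ← map_mul, inv_mul_cancel, map_one, mul_one]
  have h3 : ι x * ι y = ι y * ι x := by rw [← map_mul, h, map_mul]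
  have h4 (z) : ι z * ι z⁻¹ = 1 := by rw [← map_mul, mul_inv_cancel, map_one]
  refine (nzd F hF (M := ι y - ι x) (N := ι y - ι x⁻¹) (sub_mem y.2 x.2) (sub_mem y.2 x⁻¹.2)
    ?_).imp (fun h => Subtype.ext (Subtype.ext (sub_eq_zero.mp h)))
    fun h => Subtype.ext (Subtype.ext (sub_eq_zero.mp h))
  calc _ = ι y * ι y - ι y * ι x⁻¹ - ι x * ι y + ι x * ι x⁻¹ := by noncomm_ring
    _ = ι y * ι y - ι y * (ι x + ι x⁻¹) + 1 := by rw [h3, h4]; noncomm_ring
    _ = _ := by rw [← h2, mul_add, h4]; noncomm_ring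

lemma H_closed [TopologicalSpace F] [DiscreteTopology F] :
    IsClosed (H F hF : Set SL(2, F⟦X⟧)) := by
  have h : Continuous (σ F) := continuous_pi fun d =>
    (continuous_of_discreteTopology (f := frobenius F 2)).comp (continuous_apply d)
  have h1 (i j : Fin 2) : Continuous fun g : SL(2, F⟦X⟧) => g.1 i j :=
    continuous_subtype_val.matrix_elem i j
  exact (isClosed_eq (h1 1 1) (h.comp (h1 0 0))).inter
    (isClosed_eq (h1 1 0) (continuous_const.mul (h.comp (h1 0 1))))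

/-- A non-abelian profinite CSA-group that is not pro-`p` for any prime `p`. -/
theorem result : ∃ G : ProfiniteGrp.{0}, (∃ a b : G, a * b ≠ b * a) ∧ IsCSA G ∧
    ∀ p : ℕ, p.Prime → ¬ IsProP p G := by
  let F := GaloisField 2 2
  let _ : TopologicalSpace F := ⊥
  have : DiscreteTopology F := ⟨rfl⟩
  have hc : Nat.card F = 4 := GaloisField.card 2 2 (by decide)
  have := Fintype.ofFinite F
  have hF (a : F) : (a ^ 2) ^ 2 = a := by
    rw [← pow_mul, show 2 * 2 = Fintype.card F by rw [← Nat.card_eq_fintype_card, hc],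
      FiniteField.pow_card]
  obtain ⟨w, h0, h1⟩ : ∃ w : F, w ≠ 0 ∧ w ≠ 1 := by
    by_contra! h
    have := Nat.card_le_card_of_surjective (![0, 1] : Fin 2 → F) fun w => by
      by_cases e : w = 0
      exacts [⟨0, e.symm⟩, ⟨1, (h w e).symm⟩]
    rw [hc] at this
    simp at this
  have h3 : w ^ 3 = 1 := mul_left_cancel₀ h0 (by linear_combination hF w)
  have h2 : w ^ 2 + w + 1 = 0 := mul_left_cancel₀ (sub_ne_zero.mpr h1) (by linear_combination h3)
  have h4 : (C w : F⟦X⟧) ^ 2 + C w + 1 = 0 := by simpa using congrArg (C (R := F)) h2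
  have h5 := mk_one_mul_one_sub_eq_one F
  have h6 : σ F (mk 1) = mk 1 := by ext; simp
  let a : H F hF := ⟨⟨!![C w, 0; 0, C w ^ 2], by
    simp only [det_fin_two_of]; linear_combination (C w - 1) * h4⟩, by
      constructor <;> simp [frobenius_def]⟩
  let b : H F hF := ⟨⟨!![(C w + C w ^ 2 * X) * mk 1, mk 1; X * mk 1, (C w ^ 2 + C w * X) * mk 1], by
    simp only [det_fin_two_of]
    linear_combination (mk 1 * (1 - X) + 1) * h5 + (mk 1) ^ 2 * ((C w - 1) * (1 + X ^ 2)
      + (C w ^ 2 - C w + 1) * X) * h4⟩, by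
      constructor <;> simp [frobenius_def, h6, ← map_pow, hF]⟩
  have := (H_closed F hF).isClosedEmbedding_subtypeVal.compactSpace
  let φ := (SpecialLinearGroup.map (n := Fin 2) (constantCoeff (R := F))).comp (H F hF).subtype
  have ea : (φ a).1 = !![w, 0; 0, w ^ 2] := by
    ext i j
    fin_cases i <;> fin_cases j <;> simp [φ, a]
  have eb : (φ b).1 = !![w, 1; 0, w ^ 2] := by
    ext i j
    fin_cases i <;> fin_cases j <;> simp [φ, b]
  refine ⟨.of (H F hF), ⟨a, b, fun h => ?_⟩, H_csa F hF, fun p hp h => ?_⟩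
  · have := congrArg (fun g : H F hF => (φ g).1 0 1) h
    simp [ea, eb] at this
    exact h1 (mul_left_cancel₀ h0 (by linear_combination -this))
  have h7 (y : H F hF) (r : ℕ) [Fact r.Prime] (e : φ y ^ r = 1) (e' : φ y ≠ 1) : r = p := by
    obtain ⟨k, hk⟩ := h ⟨⟨φ.ker, (open_ker F).preimage continuous_subtype_val⟩, inferInstance⟩
      (QuotientGroup.mk y)
    have h8 : φ (y ^ p ^ k) = 1 := (QuotientGroup.eq_one_iff (y ^ p ^ k)).mp hk
    rw [map_pow, ← orderOf_dvd_iff_pow_eq_one, orderOf_eq_prime e e'] at h8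
    exact (Nat.prime_dvd_prime_iff_eq Fact.out hp).mp ((Fact.out : r.Prime).dvd_of_dvd_pow h8)
  have e1 : w * w * w = 1 := by linear_combination h3
  have e2 : w ^ 2 * w ^ 2 * w ^ 2 = 1 := by linear_combination (w ^ 3 + 1) * h3
  have h8 := h7 a 3 (Subtype.ext (by simp [ea, pow_three', e1, e2, one_fin_two]))
    fun h => h1 (by simpa [ea] using congrArg (fun g : SL(2, F) => g.1 0 0) h)
  have ec : (φ (b * a * a)).1 = !![1, w; 0, 1] := by
    simp [ea, eb, e1, e2, show w ^ 2 * w ^ 2 = w by linear_combination w * h3,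
      show w * w ^ 2 = 1 by linear_combination h3]
  have h9 := h7 (b * a * a) 2 (Subtype.ext (by
    rw [sq]
    change (φ (b * a * a)).1 * (φ (b * a * a)).1 = 1
    rw [ec, mul_fin_two, one_fin_two]
    simp only [mul_one, one_mul, mul_zero, zero_mul, add_zero, zero_add, CharTwo.add_self_eq_zero]))
    fun h => h0 (by simpa [h] using (congrFun₂ ec 0 1).symm)
  omega

end Pool.Agent.Results.MP_b9311c_al.Example
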